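import Mathlib
import Pool.Agent.N299.ND.Stm
import Pool.Agent.N281.DT.F2

/-!
Project ND, part F2I: commuting copies in `F(I)`, by reindexing.
-/

set_option autoImplicit false

open scoped BoundedContinuousFunction Topology
open Filter

noncomputable section

namespace Pool.Agent.N296.ND

open Pool.Agent.N299 Pool.Agent.N299.DT Pool.Agent.N299.ND
open Pool.Agent.N281.DT (cx SS SS_mono mem_SS q_com cx_apply)

variable {B : Type} [CStarAlgebra B]

/-- the approximate relations at the index `k` -/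
def Pr {n : ℕ} (v : Fin 4 × Fin n → (ℕ →ᵇ B)) (F : Finset B) (ε : ℝ) (k : ℕ) : Prop :=
  (∀ a ∈ F, ∀ g, ‖v g k * a - a * v g k‖ < ε ∧ ‖star (v g k) * a - a * star (v g k)‖ < ε) ∧
    ∀ a ∈ F, ‖(cx (fun g => v g k) - 1) * a‖ < ε

theorem cst_star (a : B) : cst (star a) = star (cst a) := by ext k; rfl

theorem mem_CenI {Q : Type} [CStarAlgebra Q] {q : (ℕ →ᵇ B) →⋆ₐ[ℂ] Q} {I : Submodule ℂ B}
    (hI : Idl I) {x : Q} :
    x ∈ CenI q I ↔ ∀ a ∈ I, q (cst a) * x = x * q (cst a) := by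
  unfold CenI
  rw [StarSubalgebra.mem_centralizer_iff]
  constructor
  · intro h a ha
    exact (h _ ⟨a, ha, rfl⟩).1
  · rintro h _ ⟨a, ha, rfl⟩
    refine ⟨h a ha, ?_⟩
    have h1 := h (star a) (hI.star a ha)
    rw [cst_star, map_star] at h1
    exact h1

theorem exists_index {Q : Type} [CStarAlgebra Q] {ω : Ultrafilter ℕ} {q : (ℕ →ᵇ B) →⋆ₐ[ℂ] Q}
    (hq : IsUP B Q ω q) {I : Submodule ℂ B} (hI : Idl I) {n : ℕ}
    {v : Fin 4 × Fin n → (ℕ →ᵇ B)} (hv : ∀ g, q (v g) ∈ CenI q I)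
    (hC : ∀ a ∈ I, (q (cx v) - 1) * q (cst a) = 0) (F : Finset B) (hF : ∀ a ∈ F, a ∈ I) {ε : ℝ}
    (hε : 0 < ε) : ∃ k, Pr v F ε k := by
  have ev : ∀ x : ℕ →ᵇ B, q x = 0 → ∀ᶠ k in (ω : Filter ℕ), ‖x k‖ < ε := fun x hx =>
    ((hq.ker x).mp hx).eventually (gt_mem_nhds hε)
  have h1 : ∀ᶠ k in (ω : Filter ℕ), ∀ a ∈ F, ∀ g,
      ‖v g k * a - a * v g k‖ < ε ∧ ‖star (v g k) * a - a * star (v g k)‖ < ε := by
    rw [Finset.eventually_all]
    intro a ha
    rw [eventually_all]
    intro g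
    refine (ev (v g * cst a - cst a * v g) ?_).and (ev (star (v g) * cst a - cst a * star (v g)) ?_)
    · rw [map_sub, map_mul, map_mul, (mem_CenI hI).mp (hv g) a (hF a ha), sub_self]
    · rw [map_sub, map_mul, map_mul, map_star,
        (mem_CenI hI).mp (star_mem (hv g)) a (hF a ha), sub_self]
  have h2 : ∀ᶠ k in (ω : Filter ℕ), ∀ a ∈ F, ‖(cx (fun g => v g k) - 1) * a‖ < ε := by
    rw [Finset.eventually_all]
    intro a ha
    have h3 : q ((cx v - 1) * cst a) = 0 := by
      rw [map_mul, map_sub, map_one]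
      exact hC a (hF a ha)
    filter_upwards [ev _ h3] with k hk
    rw [← cx_apply]
    exact hk
  obtain ⟨k, hk⟩ := (h1.and h2).exists
  exact ⟨k, hk⟩

theorem SS_sub {n : ℕ} (v : Fin 4 × Fin n → (ℕ →ᵇ B)) (kk : Finset B → ℕ) (F : Finset B)
    {I : Submodule ℂ B} (hI : Idl I) (hv : ∀ g k, v g k ∈ I) (hF : ∀ a ∈ F, a ∈ I) (j : ℕ) :
    ∀ a ∈ SS v kk F j, a ∈ I := by
  induction j with
  | zero => exact hF
  | succ j ih =>
    intro a ha
    simp only [SS, Finset.mem_union, Finset.mem_image, Finset.mem_univ, true_and] at ha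
    rcases ha with (ha | ⟨g, rfl⟩) | ⟨g, rfl⟩
    · exact ih a ha
    · exact hv _ _
    · exact hI.star _ (hv _ _)

/-- reindexing in `F(I)`, from approximate units -/
theorem t_F2I (hAU : S_AU) : S_F2I := by
  intro B Q _ _ _ ω q hq hω I hI E _ ρ hρ n V hV
  classical
  have : SecondCountableTopology B := UniformSpace.secondCountable_of_separable B
  have : Nonempty I := ⟨0⟩
  -- a dense sequence of `I`
  let ds : ℕ → B := fun m => (TopologicalSpace.denseSeq I m : I)
  have dsI : ∀ m, ds m ∈ I := fun m => (TopologicalSpace.denseSeq I m).2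
  have dsD : ∀ a ∈ I, ∀ S : Set B, IsClosed S → (∀ m, ds m ∈ S) → a ∈ S := by
    intro a ha S hS hm
    have h1 := (TopologicalSpace.denseRange_denseSeq I) ⟨a, ha⟩
    have hS' : IsClosed ((Subtype.val : I → B) ⁻¹' S) := hS.preimage continuous_subtype_val
    exact (hS'.closure_subset_iff.mpr (Set.range_subset_iff.mpr hm)) h1
  let B0 : ℕ → Finset B := fun N => (Finset.range (N + 1)).image ds
  have hB0 : ∀ N, ∀ a ∈ B0 N, a ∈ I := by
    intro N a ha
    obtain ⟨m, _, rfl⟩ := Finset.mem_image.mp ha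
    exact dsI m
  have hB0' : ∀ N m, m ≤ N → ds m ∈ B0 N := fun N m hm =>
    Finset.mem_image_of_mem _ (Finset.mem_range.mpr (by omega))
  have hlim : Tendsto (fun N : ℕ => 1 / ((N : ℝ) + 1)) (ω : Filter ℕ) (𝓝 0) :=
    tendsto_one_div_add_atTop_nhds_zero_nat.mono_left hω
  have hz : ∀ (x : ℕ →ᵇ B) (m : ℕ), (∀ N, m ≤ N → ‖x N‖ ≤ 1 / ((N : ℝ) + 1)) → q x = 0 := by
    intro x m hx
    rw [hq.ker]
    refine squeeze_zero' (Eventually.of_forall fun _ => norm_nonneg _) ?_ hlim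
    have hm : ∀ᶠ N in (ω : Filter ℕ), m ≤ N := hω (eventually_ge_atTop m)
    exact hm.mono fun N hN => hx N hN
  have eq_of : ∀ (x y : ℕ →ᵇ B) (m : ℕ), (∀ N, m ≤ N → ‖x N - y N‖ ≤ 1 / ((N : ℝ) + 1)) →
      q x = q y := by
    intro x y m h
    have := hz (x - y) m h
    rwa [map_sub, sub_eq_zero] at this
  have hcst : Continuous fun a : B => q (cst a) := by
    refine (continuous_hom q).comp ?_
    refine continuous_iff_continuousAt.mpr fun a => ?_
    rw [ContinuousAt, tendsto_iff_norm_sub_tendsto_zero]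
    refine squeeze_zero (fun _ => norm_nonneg _) (g := fun b => ‖b - a‖) (fun b => ?_) ?_
    · refine (BoundedContinuousFunction.norm_le (norm_nonneg _)).mpr fun N => ?_
      exact le_rfl
    · exact tendsto_iff_norm_sub_tendsto_zero.mp tendsto_id
  -- the approximate unit
  choose e eI epos ele eF using fun N => hAU B I hI (B0 N) (1 / ((N : ℝ) + 1)) (hB0 N)
    (by positivity)
  have en : ∀ N, ‖e N‖ ≤ 1 := by
    intro N
    let _ : PartialOrder B := CStarAlgebra.spectralOrder B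
    let _ : StarOrderedRing B := CStarAlgebra.spectralOrderedRing B
    have h1 := (pos_iff _).mp (epos N)
    have h2 := (pos_iff _).mp (ele N)
    rw [sub_nonneg] at h2
    exact (CStarAlgebra.norm_le_one_iff_of_nonneg (e N) h1).mpr h2
  let e' : ℕ →ᵇ B := BoundedContinuousFunction.ofNormedAddCommGroup e
    continuous_of_discreteTopology 1 en
  have he1 : ∀ a ∈ I, q e' * q (cst a) = q (cst a) := by
    intro a ha
    refine dsD a ha {a : B | q e' * q (cst a) = q (cst a)}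
      (isClosed_eq (continuous_const.mul hcst) hcst) fun m => ?_
    show q e' * q (cst (ds m)) = q (cst (ds m))
    rw [← map_mul]
    exact eq_of _ _ m fun N hN => (eF N _ (hB0' N m hN)).1
  have he2 : ∀ a ∈ I, q (cst a) * q e' = q (cst a) := by
    intro a ha
    refine dsD a ha {a : B | q (cst a) * q e' = q (cst a)}
      (isClosed_eq (hcst.mul continuous_const) hcst) fun m => ?_
    show q (cst (ds m)) * q e' = q (cst (ds m))
    rw [← map_mul]
    exact eq_of _ _ m fun N hN => (eF N _ (hB0' N m hN)).2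
  -- the preimages
  choose V' hV' using fun g => hρ.surj (V g)
  choose y hy using fun g => hq.surj (V' g : Q)
  let v : Fin 4 × Fin n → (ℕ →ᵇ B) := fun g => y g * e'
  have hvI : ∀ g k, v g k ∈ I := fun g k => hI.mulL _ (eI k) _
  have hVc : ∀ g, ∀ a ∈ I, q (cst a) * (V' g : Q) = (V' g : Q) * q (cst a) := fun g =>
    (mem_CenI hI).mp (V' g).2
  have hvq : ∀ g, q (v g) = (V' g : Q) * q e' := fun g => by rw [← hy g, ← map_mul]
  have hva : ∀ g, ∀ a ∈ I, q (v g) * q (cst a) = (V' g : Q) * q (cst a) := by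
    intro g a ha
    rw [hvq, mul_assoc, he1 a ha]
  have hvc : ∀ g, q (v g) ∈ CenI q I := by
    intro g
    rw [mem_CenI hI]
    intro a ha
    rw [hva g a ha, hvq, ← mul_assoc, hVc g a ha, mul_assoc, he2 a ha]
  have hvρ : ∀ g, ρ ⟨q (v g), hvc g⟩ = V g := by
    intro g
    rw [← hV' g, ← sub_eq_zero, ← map_sub, hρ.ker]
    intro a ha
    show (q (v g) - (V' g : Q)) * q (cst a) = 0
    rw [sub_mul, hva g a ha, sub_self]
  -- `Com` through `ρ`
  have hcom : ∀ w : Fin 4 × Fin n → (ℕ →ᵇ B), ∀ hw : ∀ g, q (w g) ∈ CenI q I,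
      Com (fun g => ρ ⟨q (w g), hw g⟩) ↔ ∀ a ∈ I, (q (cx w) - 1) * q (cst a) = 0 := by
    intro w hw
    let W : Fin 4 × Fin n → CenI q I := fun g => ⟨q (w g), hw g⟩
    let X : CenI q I := ∑ i, W (2, i) * (W (0, i) * W (1, i) - W (1, i) * W (0, i)) * W (3, i)
    have hX : (X : Q) = q (cx w) := by
      rw [q_com]
      simp only [X, cx, W, AddSubmonoidClass.coe_finsetSum, MulMemClass.coe_mul,
        AddSubgroupClass.coe_sub]
    have hρX : ρ X = ∑ i, ρ (W (2, i)) * (ρ (W (0, i)) * ρ (W (1, i)) -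
        ρ (W (1, i)) * ρ (W (0, i))) * ρ (W (3, i)) := by
      simp only [X, map_sum, map_mul, map_sub]
    have h1 : Com (fun g => ρ ⟨q (w g), hw g⟩) ↔ ρ X = 1 := by
      rw [hρX]
      rfl
    rw [h1, ← sub_eq_zero, ← map_one ρ, ← map_sub, hρ.ker, AddSubgroupClass.coe_sub, hX]
    rfl
  have hC : ∀ a ∈ I, (q (cx v) - 1) * q (cst a) = 0 := by
    rw [← hcom v hvc]
    have : (fun g => ρ ⟨q (v g), hvc g⟩) = V := funext hvρ
    rw [this]
    exact hV
  -- the indices
  have hex : ∀ (N : ℕ) (F : Finset B), ∃ k, (∀ a ∈ F, a ∈ I) → Pr v F (1 / ((N : ℝ) + 1)) k := by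
    intro N F
    by_cases hF : ∀ a ∈ F, a ∈ I
    · obtain ⟨k, hk⟩ := exists_index hq hI hvc hC F hF (show (0 : ℝ) < 1 / ((N : ℝ) + 1) by positivity)
      exact ⟨k, fun _ => hk⟩
    · exact ⟨0, fun h => absurd h hF⟩
  choose kk hkk using hex
  let κ : ℕ → ℕ → ℕ := fun N j => kk N (SS v (kk N) (B0 N) j)
  let S : ℕ → ℕ → Finset B := fun N j => SS v (kk N) (B0 N) j
  have hκ : ∀ N j, Pr v (S N j) (1 / ((N : ℝ) + 1)) (κ N j) := fun N j =>
    hkk N _ (SS_sub v (kk N) (B0 N) hI hvI (hB0 N) j)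
  have hmem : ∀ N i j g, i < j → v g (κ N i) ∈ S N j ∧ star (v g (κ N i)) ∈ S N j :=
    fun N i j g h => mem_SS v (kk N) (B0 N) h g
  have hbase : ∀ N j m, m ≤ N → ds m ∈ S N j := fun N j m hm =>
    SS_mono v (kk N) (B0 N) (Nat.zero_le j) (hB0' N m hm)
  let T' : ℕ → Fin 4 × Fin n → (ℕ →ᵇ B) := fun j g =>
    BoundedContinuousFunction.ofNormedAddCommGroup (fun N => v g (κ N j))
      continuous_of_discreteTopology ‖v g‖ (fun N => (v g).norm_coe_le_norm _)
  have hTc : ∀ j g, q (T' j g) ∈ CenI q I := by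
    intro j g
    rw [mem_CenI hI]
    intro a ha
    refine dsD a ha {a : B | q (cst a) * q (T' j g) = q (T' j g) * q (cst a)}
      (isClosed_eq (hcst.mul continuous_const) (continuous_const.mul hcst)) fun m => ?_
    show q _ * q _ = q _ * q _
    rw [← map_mul, ← map_mul]
    refine eq_of _ _ m fun N hN => ?_
    have h1 := ((hκ N j).1 _ (hbase N j m hN) g).1
    rw [norm_sub_rev] at h1
    exact h1.le
  -- commutation
  have hTT : ∀ j k, j ≠ k → ∀ i i', q (T' j i) * q (T' k i') = q (T' k i') * q (T' j i) ∧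
      q (T' j i) * star (q (T' k i')) = star (q (T' k i')) * q (T' j i) := by
    intro j k hjk i i'
    rcases lt_or_gt_of_ne hjk with h | h
    · refine ⟨?_, ?_⟩
      · rw [← map_mul, ← map_mul]
        refine eq_of _ _ 0 fun N _ => ?_
        have h1 := ((hκ N k).1 (v i (κ N j)) (hmem N j k i h).1 i').1
        rw [norm_sub_rev] at h1
        exact h1.le
      · rw [← map_star, ← map_mul, ← map_mul]
        refine eq_of _ _ 0 fun N _ => ?_
        have h1 := ((hκ N k).1 (v i (κ N j)) (hmem N j k i h).1 i').2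
        rw [norm_sub_rev] at h1
        exact h1.le
    · refine ⟨?_, ?_⟩
      · rw [← map_mul, ← map_mul]
        refine eq_of _ _ 0 fun N _ => ?_
        exact ((hκ N j).1 (v i' (κ N k)) (hmem N k j i' h).1 i).1.le
      · rw [← map_star, ← map_mul, ← map_mul]
        refine eq_of _ _ 0 fun N _ => ?_
        exact ((hκ N j).1 (star (v i' (κ N k))) (hmem N k j i' h).2 i).1.le
  -- norms
  have hcl : IsClosed (CenI q I : Set Q) := by
    have h1 : (CenI q I : Set Q) = ⋂ a ∈ (I : Set B), {x : Q | q (cst a) * x = x * q (cst a)} := by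
      ext x
      simp only [Set.mem_iInter, Set.mem_ofPred_eq, SetLike.mem_coe]
      exact mem_CenI hI
    rw [h1]
    exact isClosed_biInter fun a _ => isClosed_eq (continuous_const.mul continuous_id)
      (continuous_id.mul continuous_const)
  have : Fact (IsClosed (CenI q I : Set Q)) := ⟨hcl⟩
  let _ : CStarAlgebra (CenI q I) := StarSubalgebra.cstarAlgebra (CenI q I)
  refine ⟨fun j g => ρ ⟨q (T' j g), hTc j g⟩, ?_, ⟨∑ g, ‖v g‖, ?_⟩, ?_⟩
  · intro j k hjk i i'
    refine ⟨?_, ?_⟩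
    · rw [← map_mul, ← map_mul]
      congr 1
      exact Subtype.ext (hTT j k hjk i i').1
    · rw [← map_star, ← map_mul, ← map_mul]
      congr 1
      exact Subtype.ext (hTT j k hjk i i').2
  · intro j g
    have h0 : ‖ρ ⟨q (T' j g), hTc j g⟩‖ ≤ ‖(⟨q (T' j g), hTc j g⟩ : CenI q I)‖ :=
      NonUnitalStarAlgHom.norm_apply_le (ρ : CenI q I →⋆ₙₐ[ℂ] E) _
    have h1 : ‖q (T' j g)‖ ≤ ‖T' j g‖ :=
      NonUnitalStarAlgHom.norm_apply_le (q : (ℕ →ᵇ B) →⋆ₙₐ[ℂ] Q) (T' j g)
    have h2 : ‖T' j g‖ ≤ ‖v g‖ :=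
      (BoundedContinuousFunction.norm_le (norm_nonneg _)).mpr
        fun N => (v g).norm_coe_le_norm _
    exact h0.trans (h1.trans (h2.trans (Finset.single_le_sum (f := fun g => ‖v g‖)
      (fun _ _ => norm_nonneg _) (Finset.mem_univ g))))
  · intro j
    rw [hcom (T' j) (hTc j)]
    intro a ha
    refine dsD a ha {a : B | (q (cx (T' j)) - 1) * q (cst a) = 0}
      (isClosed_eq (continuous_const.mul hcst) continuous_const) fun m => ?_
    show (q (cx (T' j)) - 1) * q (cst (ds m)) = 0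
    rw [← map_one q, ← map_sub, ← map_mul]
    refine hz _ m fun N hN => ?_
    have h1 := (hκ N j).2 _ (hbase N j m hN)
    have h2 : ((cx (T' j) - 1) * cst (ds m)) N = (cx (fun g => v g (κ N j)) - 1) * ds m := by
      have h3 : (cx (T' j)) N = cx (fun g => v g (κ N j)) := cx_apply _ _
      rw [← h3]
      rfl
    rw [h2]
    exact h1.le

end Pool.Agent.N296.ND
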