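import Pool.Agent.N627.ND.Stm

/-!
Project ND (helper627), leaf G (helper296): sparse covers of subsets.
-/

set_option autoImplicit false

namespace Pool.Agent.N296.ND

open Pool.Agent.N627.ND

variable {V : Type}

theorem exists_walk_le {G : SimpleGraph V} {a b : V} {r : ℕ} (h : G.edist a b ≤ r) :
    ∃ p : G.Walk a b, p.length ≤ r := by
  obtain ⟨p, hp⟩ := SimpleGraph.exists_walk_of_edist_ne_top
    (ne_top_of_le_ne_top (ENat.natCast_ne_top r) h)
  refine ⟨p, ?_⟩
  rw [← hp] at h
  exact_mod_cast h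

theorem edist_le_of_walk {G : SimpleGraph V} {a b : V} {r : ℕ} (p : G.Walk a b)
    (h : p.length ≤ r) : G.edist a b ≤ r := by
  refine (SimpleGraph.edist_le p).trans ?_
  exact_mod_cast h

theorem edist_start {G : SimpleGraph V} {a b x : V} (p : G.Walk a b) (hx : x ∈ p.support)
    {r : ℕ} (hr : p.length ≤ r) : G.edist a x ≤ r := by
  classical
  exact edist_le_of_walk (p.takeUntil x hx) ((p.length_takeUntil_le_length hx).trans hr)

theorem edist_end {G : SimpleGraph V} {a b x : V} (p : G.Walk a b) (hx : x ∈ p.support)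
    {r : ℕ} (hr : p.length ≤ r) : G.edist b x ≤ r := by
  classical
  rw [SimpleGraph.edist_comm]
  exact edist_le_of_walk (p.dropUntil x hx) ((p.length_dropUntil_le_length hx).trans hr)

theorem link_val {G : SimpleGraph V} {s : Set V} {R t : ℕ} (h : Link (G.induce s) R t) :
    Link G R t := by
  obtain ⟨v, P, h1, h2⟩ := h
  refine ⟨fun i => (v i : V), fun i j a => (P i j a : V), ?_, ?_⟩
  · intro i j hij
    obtain ⟨e1, e2, e3⟩ := h1 i j hij
    refine ⟨congrArg Subtype.val e1, congrArg Subtype.val e2, fun a ha => ?_⟩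
    rcases e3 a ha with h | h
    · left
      exact congrArg Subtype.val h
    · right
      exact h
  · intro i j k l hij hjk hkl a b ha hb h
    exact h2 i j k l hij hjk hkl a b ha hb (Subtype.ext h)

theorem ex_val {G : SimpleGraph V} {s : Set V} {μ : ℕ → ℕ} (h : Ex μ G) : Ex μ (G.induce s) :=
  fun R hR => h R (link_val hR)

open Classical in
/-- the vertices of chosen short walks between the points of `W` -/
noncomputable def YY (G : SimpleGraph V) (r : ℕ) (W : Finset V) : Finset V :=
  W ∪ W.biUnion fun a => W.biUnion fun b =>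
    if h : G.edist a b ≤ r then (exists_walk_le h).choose.support.toFinset else ∅

theorem YY_sub (G : SimpleGraph V) (r : ℕ) (W : Finset V) {a : V} (ha : a ∈ W) :
    a ∈ YY G r W := by
  classical
  exact Finset.mem_union_left _ ha

theorem YY_walk (G : SimpleGraph V) (r : ℕ) (W : Finset V) {a b : V} (ha : a ∈ W) (hb : b ∈ W)
    (h : G.edist a b ≤ r) : ∃ p : G.Walk a b, p.length ≤ r ∧ ∀ x ∈ p.support, x ∈ YY G r W := by
  classical
  refine ⟨(exists_walk_le h).choose, (exists_walk_le h).choose_spec, fun x hx => ?_⟩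
  unfold YY
  refine Finset.mem_union_right _ (Finset.mem_biUnion.2 ⟨a, ha, Finset.mem_biUnion.2 ⟨b, hb, ?_⟩⟩)
  rw [dif_pos h, List.mem_toFinset]
  exact hx

theorem YY_card (G : SimpleGraph V) (r : ℕ) (W : Finset V) :
    (YY G r W).card ≤ (r + 2) * W.card ^ 2 := by
  classical
  unfold YY
  refine (Finset.card_union_le _ _).trans ?_
  have h1 : (W.biUnion fun a => W.biUnion fun b =>
      if h : G.edist a b ≤ r then (exists_walk_le h).choose.support.toFinset else ∅).card ≤
      W.card * (W.card * (r + 1)) := by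
    refine Finset.card_biUnion_le_card_mul _ _ _ fun a _ => ?_
    refine Finset.card_biUnion_le_card_mul _ _ _ fun b _ => ?_
    split_ifs with h
    · refine (List.toFinset_card_le _).trans ?_
      rw [SimpleGraph.Walk.length_support]
      have := (exists_walk_le h).choose_spec
      omega
    · simp
  have h2 : W.card ≤ W.card ^ 2 := Nat.le_self_pow (by norm_num) _
  nlinarith

/-- **leaf G** -/
theorem g (hF : S_F) : S_G := by
  classical
  intro μ r ε hε
  obtain ⟨C, hC⟩ := hF μ (2 * r) (ε / 2) (by positivity)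
  refine ⟨max C 0 * ((r : ℝ) + 2) ^ (ε / 2), ?_⟩
  intro V _ G hG W
  obtain ⟨Y, hY⟩ : ∃ Y, Y = YY G r W := ⟨_, rfl⟩
  have hYs : ∀ a ∈ W, a ∈ (Y : Set V) := by
    intro a ha
    rw [hY]
    exact YY_sub G r W ha
  obtain ⟨f, -, hf⟩ := hC (↥(Y : Set V)) (G.induce (Y : Set V)) (ex_val hG)
  obtain ⟨H, hH⟩ : ∃ H, H = G.induce (Y : Set V) := ⟨_, rfl⟩
  rw [← hH] at hf
  have hc : ∀ b : V, ∃ x : V, ∀ hb : b ∈ W, ∃ hx : x ∈ (Y : Set V),
      H.edist ⟨b, hYs b hb⟩ ⟨x, hx⟩ ≤ r ∧
      ∀ y : ↥(Y : Set V), H.edist ⟨b, hYs b hb⟩ y ≤ r → f ⟨x, hx⟩ ≤ f y := by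
    intro b
    by_cases hb : b ∈ W
    · obtain ⟨x, hx1, hx2⟩ := Set.exists_min_image
        {y : ↥(Y : Set V) | H.edist ⟨b, hYs b hb⟩ y ≤ r} f (Set.toFinite _)
        ⟨⟨b, hYs b hb⟩, by simp⟩
      exact ⟨x, fun _ => ⟨x.2, hx1, fun y hy => hx2 y hy⟩⟩
    · exact ⟨b, fun h => absurd h hb⟩
  choose c hc using hc
  refine ⟨c, fun a => if ha : a ∈ W then
    ((WR H f (2 * r) ⟨a, hYs a ha⟩).toFinite.toFinset).image Subtype.val else ∅, ?_, ?_, ?_⟩
  · intro b hb
    obtain ⟨hx, h1, -⟩ := hc b hb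
    obtain ⟨p, hp⟩ := exists_walk_le h1
    subst hH
    have h2 := edist_le_of_walk (r := r) (p.map (SimpleGraph.Embedding.induce (Y : Set V)).toHom)
      ((SimpleGraph.Walk.length_map _ p).le.trans hp)
    exact h2
  · intro a ha b hb hab
    simp only [dif_pos ha]
    rw [Finset.mem_image]
    obtain ⟨hx, h1, h2⟩ := hc b hb
    refine ⟨⟨c b, hx⟩, ?_, rfl⟩
    rw [Set.Finite.mem_toFinset]
    obtain ⟨p, hp1, hp2⟩ := YY_walk G r W ha hb hab
    rw [← hY] at hp2
    obtain ⟨q, hq⟩ := exists_walk_le h1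
    subst hH
    obtain ⟨p', hp'⟩ : ∃ p' : (G.induce (Y : Set V)).Walk ⟨a, hYs a ha⟩ ⟨b, hYs b hb⟩,
        p'.length ≤ r := by
      refine ⟨p.induce (Y : Set V) hp2, ?_⟩
      have e := congrArg SimpleGraph.Walk.length (SimpleGraph.Walk.map_induce (s := (Y : Set V)) p hp2)
      rw [SimpleGraph.Walk.length_map] at e
      rw [e]
      exact hp1
    refine ⟨p'.append q, ?_, ?_⟩
    · rw [SimpleGraph.Walk.length_append]
      omega
    · intro x hx
      apply h2
      rw [SimpleGraph.Walk.mem_support_append_iff] at hx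
      rcases hx with hx | hx
      · exact edist_end p' hx hp'
      · exact edist_start q hx hq
  · intro a
    by_cases ha : a ∈ W
    · simp only [dif_pos ha]
      have hW : 0 < W.card := Finset.card_pos.2 ⟨a, ha⟩
      have h1 := hf ⟨a, hYs a ha⟩
      have h2 : (((WR H f (2 * r) ⟨a, hYs a ha⟩).toFinite.toFinset).image Subtype.val).card ≤
          (WR H f (2 * r) ⟨a, hYs a ha⟩).ncard := by
        refine Finset.card_image_le.trans (le_of_eq ?_)
        exact (Set.ncard_eq_toFinset_card _ _).symm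
      have h3 : Fintype.card (↥(Y : Set V)) = Y.card := by simp
      rw [h3] at h1
      have h4 : (Y.card : ℝ) ≤ (r + 2) * (W.card : ℝ) ^ 2 := by
        have := YY_card G r W
        rw [← hY] at this
        exact_mod_cast this
      calc ((((WR H f (2 * r) ⟨a, hYs a ha⟩).toFinite.toFinset).image Subtype.val).card : ℝ) ≤
          ((WR H f (2 * r) ⟨a, hYs a ha⟩).ncard : ℝ) := by exact_mod_cast h2
        _ ≤ C * (Y.card : ℝ) ^ (ε / 2) := h1
        _ ≤ max C 0 * (Y.card : ℝ) ^ (ε / 2) := by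
            gcongr
            exact le_max_left _ _
        _ ≤ max C 0 * (((r : ℝ) + 2) * (W.card : ℝ) ^ 2) ^ (ε / 2) := by
            gcongr
        _ = max C 0 * ((r : ℝ) + 2) ^ (ε / 2) * (W.card : ℝ) ^ ε := by
            rw [Real.mul_rpow (by positivity) (by positivity), ← Real.rpow_natCast (W.card : ℝ) 2,
              ← Real.rpow_mul (by positivity)]
            have : ((2 : ℕ) : ℝ) * (ε / 2) = ε := by push_cast; ring
            rw [this]
            ring
    · simp only [dif_neg ha, Finset.card_empty, Nat.cast_zero]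
      positivity

end Pool.Agent.N296.ND
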